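import Pool.Agent.Helper51.PP.Spec

/-!
# PC, part COR
-/

set_option autoImplicit false

namespace Pool.Agent.Helper87.PC.COR

open Pool.Agent.Helper51.PP MeasureTheory ProbabilityTheory Filter Topology
open scoped ENNReal BigOperators

theorem main (h1 : S_CH1) (h5 : S_CH5) (h6 : S_CH6) (hCL : S_CL) (hG : S_GRL) (hP : S_PTW)
    (hC : S_CONG) : S_COR := by
  intro X E _ _ nx rev hrev x0 C hC0 hent w ψ B hB hev
  have hcl : ∀ x ∈ {x | Reach nx x0 x}, ∀ e, nx x e ∈ {x | Reach nx x0 x} :=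
    fun x hx e => Reach.step x e hx
  obtain ⟨m1, m2, m3, m4, -⟩ := hC nx {x | Reach nx x0 x} hcl
  have hx0 : x0 ∈ {x | Reach nx x0 x} := Reach.refl
  have hlam : Tendsto (fun k : ℕ => ((1 : ℝ) / 2) ^ k) atTop (𝓝 0) :=
    tendsto_pow_atTop_nhds_zero_of_lt_one (by norm_num) (by norm_num)
  have hpt := hP nx x0 (fun k x e => w x e - grad nx (ψ k) x e) (fun k => (1 / 2) ^ k) hlam hev
  obtain ⟨χ, hχ0, hχ⟩ := hG nx x0 ψ w (fun x e hx => by
    have := (tendsto_const_nhds (x := w x e)).sub (hpt x e hx)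
    simpa using this)
  refine ⟨χ, hχ0, hχ, ?_⟩
  obtain ⟨C', hC', hCL'⟩ := hCL C hC0
  -- nonnegativity
  have hnn : ∀ f : X → ℝ, (∀ x, 0 ≤ f x) → ∀ n, 0 ≤ PRn nx f n x0 := by
    intro f hf n
    have := m1 (fun _ => 0) f (fun x _ => hf x) n x0 hx0
    rwa [m4] at this
  have hVf : ∀ (c : X → E → ℝ) x, 0 ≤ Vf c x := by
    intro c x
    unfold Vf
    have : 0 ≤ ∑ e, (c x e) ^ 2 := Finset.sum_nonneg fun e _ => sq_nonneg _
    positivity
  have hmono : Monotone (fun n => ent nx x0 n) := by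
    refine monotone_nat_of_le_succ fun n => ?_
    have a := h5 nx rev hrev x0 n
    obtain ⟨c1, -⟩ := h1 nx rev hrev x0 n
    obtain ⟨c2, -⟩ := h1 nx rev hrev x0 (n + 1)
    have b : 0 ≤ (1 / 2) * ((Fintype.card E : ℝ)⁻¹ * ∑ e, ∑' y,
        (pk nx x0 n (nx y e) - pk nx x0 (n + 1) y) ^ 2 /
          (pk nx x0 n (nx y e) + pk nx x0 (n + 1) y)) := by
      have : 0 ≤ ∑ e, ∑' y, (pk nx x0 n (nx y e) - pk nx x0 (n + 1) y) ^ 2 /
          (pk nx x0 n (nx y e) + pk nx x0 (n + 1) y) :=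
        Finset.sum_nonneg fun e _ => tsum_nonneg fun y =>
          div_nonneg (sq_nonneg _) (add_nonneg (c1 _) (c2 _))
      positivity
    show ent nx x0 n ≤ ent nx x0 (n + 1)
    linarith
  -- the comparison functions
  set u : ℕ → X → ℝ := fun k x => χ x - ψ k x + ψ k x0 with hu
  have hgr : ∀ k, ∀ x ∈ {x | Reach nx x0 x},
      Vf (grad nx (u k)) x = Vf (fun x e => w x e - grad nx (ψ k) x e) x := by
    intro k x hx
    unfold Vf
    congr 1
    refine Finset.sum_congr rfl fun e _ => ?_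
    have h := hχ x e hx
    have : grad nx (u k) x e = w x e - grad nx (ψ k) x e := by
      rw [← h]
      simp only [grad, hu]
      ring
    rw [this]
  have hU : ∀ᶠ k in atTop, ∀ n : ℕ, 1 ≤ n →
      PRn nx (fun y => |u k y|) n x0 ≤ C' * √((1 / 2 : ℝ) ^ k) * √n := by
    filter_upwards [hev] with k hk
    have hsum : ∀ n, ∑ j ∈ Finset.range n, PRn nx (Vf (grad nx (u k))) j x0
        ≤ (1 / 2 : ℝ) ^ k * n := by
      intro n
      have a := hk n
      unfold SR at a
      refine le_trans (le_of_eq ?_) a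
      refine Finset.sum_congr rfl fun j _ => ?_
      exact m2 _ _ (hgr k) j x0 hx0
    have hu0 : u k x0 = 0 := by simp [hu, hχ0]
    apply hCL' (fun n => ent nx x0 n) (fun n => PRn nx (fun y => |u k y|) n x0)
      (fun n => PRn nx (Vf (grad nx (u k))) n x0) ((1 / 2) ^ k) (by positivity) hmono
      (fun n => hnn _ (fun x => abs_nonneg _) n) (fun n => hnn _ (hVf _) n) hsum hent
      (fun n => h6 nx rev hrev (u k) x0 n)
    · show |u k x0| = 0
      rw [hu0, abs_zero]
    · have hs1 := hsum 1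
      have hF0 : Vf (grad nx (u k)) x0 ≤ (1 / 2 : ℝ) ^ k := by
        simpa [PRn] using hs1
      show PR nx (fun y => |u k y|) x0 ≤ _
      apply Real.le_sqrt_of_sq_le
      refine le_trans ?_ hF0
      unfold PR Vf
      have hcard : 0 < (Fintype.card E : ℝ) := by exact_mod_cast Fintype.card_pos
      have hg : ∀ e, |u k (nx x0 e)| = |grad nx (u k) x0 e| := by
        intro e; simp only [grad, hu0, sub_zero]
      simp only [hg]
      have hcs := sq_sum_le_card_mul_sum_sq (s := (Finset.univ : Finset E))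
        (f := fun e => |grad nx (u k) x0 e|)
      simp only [sq_abs, Finset.card_univ] at hcs
      rw [mul_pow]
      calc ((Fintype.card E : ℝ)⁻¹) ^ 2 * (∑ e, |grad nx (u k) x0 e|) ^ 2
          ≤ ((Fintype.card E : ℝ)⁻¹) ^ 2 * ((Fintype.card E : ℝ) * ∑ e, (grad nx (u k) x0 e) ^ 2) :=
            mul_le_mul_of_nonneg_left hcs (by positivity)
        _ = (Fintype.card E : ℝ)⁻¹ * ∑ e, (grad nx (u k) x0 e) ^ 2 := by field_simp
  have hχle : ∀ k n, PRn nx (fun y => |χ y|) n x0 ≤ PRn nx (fun y => |u k y|) n x0 + 2 * B k := by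
    intro k n
    have a := m1 (fun y => |χ y|) (fun y => 1 * |u k y| + 1 * (2 * B k)) (fun x _ => by
      have b1 : χ x = u k x + ψ k x - ψ k x0 := by simp only [hu]; ring
      have b2 := hB k x
      have b3 := hB k x0
      calc |χ x| = |u k x + ψ k x - ψ k x0| := by rw [← b1]
        _ ≤ |u k x + ψ k x| + |ψ k x0| := abs_sub _ _
        _ ≤ |u k x| + |ψ k x| + |ψ k x0| := by
          have := abs_add_le (u k x) (ψ k x)
          linarith
        _ ≤ 1 * |u k x| + 1 * (2 * B k) := by linarith) n x0 hx0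
    have b := m3 (fun y => |u k y|) (fun _ => 2 * B k) 1 1 n x0
    rw [m4] at b
    linarith
  -- the limit
  have hsq : Tendsto (fun k : ℕ => C' * √((1 / 2 : ℝ) ^ k)) atTop (𝓝 0) := by
    have := (hlam.sqrt).const_mul C'
    simpa using this
  rw [Metric.tendsto_atTop]
  intro ε hε
  obtain ⟨k, hk1, hk2⟩ := ((hsq.eventually (gt_mem_nhds (show (0 : ℝ) < ε / 2 by positivity))).and
    hU).exists
  have hBk : 0 ≤ B k := (abs_nonneg _).trans (hB k x0)
  have hinv : Tendsto (fun n : ℕ => 2 * B k * (√(n : ℝ))⁻¹) atTop (𝓝 0) := by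
    have h3 : Tendsto (fun n : ℕ => √(n : ℝ)) atTop atTop :=
      Real.tendsto_sqrt_atTop.comp tendsto_natCast_atTop_atTop
    have := (tendsto_inv_atTop_zero.comp h3).const_mul (2 * B k)
    simpa using this
  obtain ⟨N, hN⟩ := eventually_atTop.1
    (hinv.eventually (gt_mem_nhds (show (0 : ℝ) < ε / 2 by positivity)))
  refine ⟨max N 1, fun n hn => ?_⟩
  have hn1 : 1 ≤ n := (le_max_right _ _).trans hn
  have hs : 0 < √(n : ℝ) := Real.sqrt_pos.2 (by exact_mod_cast hn1)
  have a1 := hχle k n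
  have a2 := hk2 n hn1
  have a3 := hN n ((le_max_left _ _).trans hn)
  have a4 := hnn (fun y => |χ y|) (fun x => abs_nonneg _) n
  rw [Real.dist_eq, sub_zero, abs_of_nonneg (by positivity)]
  calc PRn nx (fun y => |χ y|) n x0 / √(n : ℝ)
      ≤ (C' * √((1 / 2 : ℝ) ^ k) * √n + 2 * B k) / √(n : ℝ) :=
        div_le_div_of_nonneg_right (by linarith) hs.le
    _ = C' * √((1 / 2 : ℝ) ^ k) + 2 * B k * (√(n : ℝ))⁻¹ := by field_simp
    _ < ε := by linarith

end Pool.Agent.Helper87.PC.COR
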