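import Pool.Agent.Helper51.PP.Spec

/-!
# PC, part LEVY
-/

set_option autoImplicit false

namespace Pool.Agent.Helper87.PC.LEVY

open Pool.Agent.Helper51.PP MeasureTheory ProbabilityTheory Filter Topology
open scoped ENNReal BigOperators

lemma exp_diff (x y : ℝ) :
    ‖Complex.exp (Complex.I * ((x : ℝ) : ℂ)) - Complex.exp (Complex.I * ((y : ℝ) : ℂ))‖ ≤ |x - y| := by
  have h1 : Complex.exp (Complex.I * ((x : ℝ) : ℂ)) - Complex.exp (Complex.I * ((y : ℝ) : ℂ))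
      = Complex.exp (Complex.I * ((y : ℝ) : ℂ)) * (Complex.exp (Complex.I * ((x - y : ℝ) : ℂ)) - 1) := by
    rw [mul_sub, ← Complex.exp_add, mul_one]
    congr 2
    push_cast
    ring
  rw [h1, norm_mul]
  have h2 : ‖Complex.exp (Complex.I * ((y : ℝ) : ℂ))‖ = 1 := by
    rw [mul_comm]; exact Complex.norm_exp_ofReal_mul_I y
  rw [h2, one_mul]
  have h3 := Real.norm_exp_I_mul_ofReal_sub_one_le (x := x - y)
  simpa using h3

/-- the test function -/
noncomputable def FF {d : ℕ} (a : Fin d → ℝ) (n : ℕ) (v : Fin d → ℤ) : ℂ :=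
  Complex.exp (Complex.I * (((√(n : ℝ))⁻¹ * ∑ i, a i * (v i : ℝ) : ℝ) : ℂ))

lemma FF_diff {d : ℕ} (a b : Fin d → ℝ) (δ : ℝ) (h : ∀ i, |a i - b i| ≤ δ) (n : ℕ)
    (v : Fin d → ℤ) : ‖FF a n v - FF b n v‖ ≤ ((√(n : ℝ))⁻¹ * δ) * N1 v := by
  unfold FF
  refine (exp_diff _ _).trans ?_
  have h1 : (√(n : ℝ))⁻¹ * ∑ i, a i * (v i : ℝ) - (√(n : ℝ))⁻¹ * ∑ i, b i * (v i : ℝ)
      = (√(n : ℝ))⁻¹ * ∑ i, (a i - b i) * (v i : ℝ) := by
    rw [← mul_sub, ← Finset.sum_sub_distrib]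
    congr 1
    exact Finset.sum_congr rfl fun i _ => by ring
  rw [h1, abs_mul, abs_of_nonneg (by positivity : 0 ≤ (√(n : ℝ))⁻¹), mul_assoc]
  refine mul_le_mul_of_nonneg_left ?_ (by positivity)
  refine (Finset.abs_sum_le_sum_abs _ _).trans ?_
  unfold N1
  rw [Finset.mul_sum]
  refine Finset.sum_le_sum fun i _ => ?_
  rw [abs_mul]
  exact mul_le_mul_of_nonneg_right (h i) (abs_nonneg _)

/-- the limit -/
noncomputable def psi {d : ℕ} (D : Matrix (Fin d) (Fin d) ℝ) (a : Fin d → ℝ) : ℝ :=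
  Real.exp (-((∑ i, ∑ j, a i * D i j * a j) / 2))

lemma psi_cont {d : ℕ} (D : Matrix (Fin d) (Fin d) ℝ) : Continuous (psi D) := by
  unfold psi
  fun_prop

theorem main (hCHAR : S_CHAR) (hLNK : S_LNK) (hCONG : S_CONG) (hEVF : S_EVF) : S_LEVY := by
  intro d _ D hD ω hω h0 C hM hq
  have : Nonempty (Fin d) := ⟨0⟩
  -- the main estimate
  have key : ∀ (a b : Fin d → ℝ) (δ : ℝ), 0 ≤ δ → (∀ i, |a i - b i| ≤ δ) → ∀ n : ℕ, 1 ≤ n →
      ‖EV (nextPt ω) (FF a n) n 0 - EV (nextPt ω) (FF b n) n 0‖ ≤ δ * C := by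
    intro a b δ hδ hab n hn
    have e1 : ∀ c : Fin d → ℝ, EV (nextPt ω) (FF c n) n 0
        = EV (nxO ω hω) (fun w => FF c n w.1) n ⟨0, h0⟩ :=
      fun c => (hLNK d ω hω n ⟨0, h0⟩).2 (FF c n)
    rw [e1, e1]
    refine ((hEVF (nxO ω hω)).2 _ _ n _).trans ?_
    obtain ⟨c1, -, c3, -, -⟩ := hCONG (nxO ω hω) Set.univ (fun _ _ _ => Set.mem_univ _)
    have h1 := c1 (fun y => ‖FF a n y.1 - FF b n y.1‖)
      (fun y => ((√(n : ℝ))⁻¹ * δ) * N1 y.1 + 0 * N1 y.1)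
      (fun y _ => by rw [zero_mul, add_zero]; exact FF_diff a b δ hab n y.1) n ⟨0, h0⟩
      (Set.mem_univ _)
    refine h1.trans ?_
    rw [c3 (fun y => N1 y.1) (fun y => N1 y.1), zero_mul, add_zero]
    have h2 := hM n hn
    have h3 : 0 < √(n : ℝ) := Real.sqrt_pos.2 (by exact_mod_cast hn)
    calc (√(n : ℝ))⁻¹ * δ * PRn (nxO ω hω) (fun y => N1 y.1) n ⟨0, h0⟩
        ≤ (√(n : ℝ))⁻¹ * δ * (C * √(n : ℝ)) := mul_le_mul_of_nonneg_left h2 (by positivity)
      _ = δ * C := by field_simp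
  refine ProbabilityMeasure.tendsto_iff_tendsto_charFun.2 fun t => ?_
  set s : Fin d → ℝ := fun i => t i with hs
  have e0 : charFun (multivariateGaussian 0 D) t = ((psi D s : ℝ) : ℂ) := by
    rw [charFun_multivariateGaussian hD]
    unfold psi
    rw [Complex.ofReal_exp]
    congr 1
    simp only [inner_zero_right, Complex.ofReal_zero, zero_mul, zero_sub]
    push_cast
    congr 2
    simp only [dotProduct, Matrix.mulVec, Finset.mul_sum, hs]
    push_cast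
    refine Finset.sum_congr rfl fun i _ => ?_
    refine Finset.sum_congr rfl fun j _ => ?_
    ring
  have e2 : ∀ n : ℕ, charFun ((scaledLaw ω n : ProbabilityMeasure (EuclideanSpace ℝ (Fin d))) :
      Measure (EuclideanSpace ℝ (Fin d))) t = EV (nextPt ω) (FF s n) n 0 := fun n =>
    hCHAR d ω n t
  have e3 : Tendsto (fun n : ℕ => EV (nextPt ω) (FF s n) n 0) atTop (𝓝 ((psi D s : ℝ) : ℂ)) → 
      Tendsto (fun n : ℕ => charFun ((scaledLaw ω n : ProbabilityMeasure (EuclideanSpace ℝ (Fin d))) :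
        Measure (EuclideanSpace ℝ (Fin d))) t) atTop (𝓝 (charFun (multivariateGaussian 0 D) t)) := by
    intro h
    rw [e0]
    simpa only [e2] using h
  refine e3 ?_
  rw [Metric.tendsto_atTop]
  intro ε hε
  have hcs : ContinuousAt (psi D) s := (psi_cont D).continuousAt
  obtain ⟨r, hr, hrp⟩ := Metric.continuousAt_iff.1 hcs (ε / 3) (by positivity)
  set δ : ℝ := min (r / 2) (ε / (3 * (|C| + 1))) with hδ
  have hδ0 : 0 < δ := by
    rw [hδ]
    apply lt_min (by positivity) (by positivity)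
  choose a ha using fun i => exists_rat_near (s i) hδ0
  have hclose : ∀ i, |s i - (a i : ℝ)| ≤ δ := fun i => (ha i).le
  have hpsi : dist (psi D (fun i => (a i : ℝ))) (psi D s) < ε / 3 := by
    apply hrp
    rw [dist_pi_lt_iff hr]
    intro i
    rw [dist_comm, Real.dist_eq]
    have h1 := hclose i
    have h2 : δ ≤ r / 2 := min_le_left _ _
    linarith
  have hlim := hq a
  rw [Metric.tendsto_atTop] at hlim
  obtain ⟨N, hN⟩ := hlim (ε / 3) (by positivity)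
  refine ⟨max N 1, fun n hn => ?_⟩
  have hn1 : 1 ≤ n := (le_max_right _ _).trans hn
  have t1 := key s (fun i => (a i : ℝ)) δ hδ0.le hclose n hn1
  have t2 := hN n ((le_max_left _ _).trans hn)
  have t3 : δ * C < ε / 3 := by
    have h2 : δ ≤ ε / (3 * (|C| + 1)) := min_le_right _ _
    have h3 : δ * C ≤ δ * |C| := mul_le_mul_of_nonneg_left (le_abs_self C) hδ0.le
    have h4 : δ * (3 * (|C| + 1)) ≤ ε := by
      rwa [le_div_iff₀ (by positivity)] at h2
    nlinarith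
  have t4 : dist (EV (nextPt ω) (FF (fun i => (a i : ℝ)) n) n 0)
      ((psi D (fun i => (a i : ℝ)) : ℝ) : ℂ) < ε / 3 := t2
  have t5 : dist ((psi D (fun i => (a i : ℝ)) : ℝ) : ℂ) ((psi D s : ℝ) : ℂ) < ε / 3 := by
    rw [Complex.dist_eq, ← Complex.ofReal_sub, Complex.norm_real, ← dist_eq_norm]
    exact hpsi
  have t6 : dist (EV (nextPt ω) (FF s n) n 0) (EV (nextPt ω) (FF (fun i => (a i : ℝ)) n) n 0)
      < ε / 3 := by
    rw [dist_eq_norm]; exact t1.trans_lt t3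
  calc dist (EV (nextPt ω) (FF s n) n 0) ((psi D s : ℝ) : ℂ)
      ≤ dist (EV (nextPt ω) (FF s n) n 0) (EV (nextPt ω) (FF (fun i => (a i : ℝ)) n) n 0)
        + dist (EV (nextPt ω) (FF (fun i => (a i : ℝ)) n) n 0)
          ((psi D (fun i => (a i : ℝ)) : ℝ) : ℂ)
        + dist ((psi D (fun i => (a i : ℝ)) : ℝ) : ℂ) ((psi D s : ℝ) : ℂ) := dist_triangle4 _ _ _ _
    _ < ε := by linarith

end Pool.Agent.Helper87.PC.LEVY
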